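import Mathlib
import Pool.Agent.X82.RainbowDefs
import Pool.Agent.X82.Wires

/-!
# No bounded colour surplus forces rainbow subgraphs
-/

set_option autoImplicit false

namespace Pool.Agent.Results.MP_415bd8_co.NoUniformSurplus

open Pool.Agent.X82.Rainbow

/-- For every `k` there is a finite graph `G` with chromatic index at most `24` such that every
proper edge colouring of `G` with at most `χ'(G) + k` colours contains a rainbow copy of the
4-cycle, while some proper edge colouring of `G` contains no rainbow copy of the 4-cycle. -/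
theorem result : ∀ k : ℕ, ∃ (V : Type) (_ : Fintype V) (G : SimpleGraph V),
    chromaticIndex G ≤ 24 ∧
    (∀ c : Sym2 V → ℕ, IsProper G c → numColours G c ≤ chromaticIndex G + k →
      HasRainbowCopy (SimpleGraph.cycleGraph 4) G c) ∧
    ∃ c : Sym2 V → ℕ, IsProper G c ∧ ¬ HasRainbowCopy (SimpleGraph.cycleGraph 4) G c := by
  intro k
  let m := 25 + k
  have hX : chromaticIndex (Pool.Agent.X82.Wires.G m) ≤ 24 := by
    obtain ⟨c, hp, hc⟩ := Pool.Agent.X82.Wires.few_colours m
    exact (index_le hp).trans (numColours_le hc)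
  refine ⟨Pool.Agent.X82.Wires.Vt m, inferInstance, Pool.Agent.X82.Wires.G m, hX, ?_, ?_⟩
  · intro c hp hc
    have hn : ¬ NoRainbow (Pool.Agent.X82.Wires.G m) c := by
      intro hn
      have h1 := Pool.Agent.X82.Wires.many_colours hp hn
      have h2 : m ≤ numColours (Pool.Agent.X82.Wires.G m) c := h1
      omega
    obtain ⟨x, h1, h2, h3⟩ := exists_c4 hp hn
    exact ⟨x, h1, h2, h3⟩
  · obtain ⟨c, hp, hn⟩ := Pool.Agent.X82.Wires.no_rainbow m
    refine ⟨c, hp, ?_⟩
    rintro ⟨x, h1, h2, h3⟩
    exact no_c4 hn x h1 h2 h3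

end Pool.Agent.Results.MP_415bd8_co.NoUniformSurplus
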